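import Pool.Agent.helper34.EL.Defs

/-! # XL module EIG -/

set_option autoImplicit false

namespace Pool.Agent.helper34.EL

open Finset

theorem EIG_order (n : ℕ) (u : (ZMod n)ˣ) (x : ZMod n) :
    addOrderOf ((u : ZMod n) * x) = addOrderOf x := by
  have h := addOrderOf_injective (AddMonoidHom.mulLeft (u : ZMod n)) (fun a b hab => by
    simpa using hab) x
  exact h

/-- two elements of the same order are unit multiples of each other -/
theorem EIG_unit (n : ℕ) [NeZero n] (x y : ZMod n) (h : addOrderOf x = addOrderOf y) :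
    ∃ u : (ZMod n)ˣ, y = (u : ZMod n) * x := by
  have key : ∀ z : ZMod n, ∃ d : ℕ, d ∣ n ∧ addOrderOf z = n / d ∧
      ∃ u : (ZMod n)ˣ, z = (u : ZMod n) * (d : ZMod n) := by
    intro z
    obtain ⟨d, hd, u, hu, hz⟩ := z.eq_unit_mul_divisor
    refine ⟨d, hd, ?_, hu.unit, by rw [hz]; rfl⟩
    have h1 : addOrderOf z = addOrderOf ((d : ℕ) : ZMod n) := by
      rw [hz]; exact EIG_order n hu.unit _
    rw [h1, ZMod.addOrderOf_coe _ (NeZero.ne n), Nat.gcd_eq_right hd]
  obtain ⟨d, hd, h1, u, hu⟩ := key x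
  obtain ⟨d', hd', h2, u', hu'⟩ := key y
  have hn : 0 < n := Nat.pos_of_ne_zero (NeZero.ne n)
  have hdd : d = d' := by
    rw [h1, h2] at h
    have e1 := Nat.div_div_self hd hn.ne'
    have e2 := Nat.div_div_self hd' hn.ne'
    rw [← e1, ← e2, h]
  subst hdd
  refine ⟨u' * u⁻¹, ?_⟩
  rw [hu, hu', Units.val_mul]
  rw [mul_assoc, ← mul_assoc ((u⁻¹ : (ZMod n)ˣ) : ZMod n), Units.inv_mul, one_mul]

/-- the kernel of reduction modulo `M` -/
theorem EIG_mul_eq (n : ℕ) [NeZero n] {M : ℕ} (hM : M ∣ n) (u : (ZMod n)ˣ)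
    (hu : u ∈ (ZMod.unitsMap hM).ker) (x : ZMod n) (hx : addOrderOf x ∣ M) :
    (u : ZMod n) * x = x := by
  have h1 : ((u : ZMod n).cast : ZMod M) = 1 := by
    have h := congrArg Units.val (MonoidHom.mem_ker.1 hu)
    rwa [ZMod.unitsMap_val, Units.val_one] at h
  have h2 : (((u : ZMod n) - 1).cast : ZMod M) = 0 := by
    rw [ZMod.cast_sub hM, h1, ZMod.cast_one hM, sub_self]
  have h3 : M ∣ ((u : ZMod n) - 1).val := by
    rw [← ZMod.natCast_eq_zero_iff, ZMod.natCast_val]
    exact h2
  have h4 : ((u : ZMod n) - 1) * x = 0 := by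
    have h5 : ((((u : ZMod n) - 1).val : ℕ) : ZMod n) = (u : ZMod n) - 1 := ZMod.natCast_zmod_val _
    rw [← h5, ← nsmul_eq_mul, ← addOrderOf_dvd_iff_nsmul_eq_zero]
    exact hx.trans h3
  rw [sub_mul, one_mul, sub_eq_zero] at h4
  exact h4

theorem EIG_mem_ker (n : ℕ) [NeZero n] {M : ℕ} (hM : M ∣ n) (u : (ZMod n)ˣ) (x : ZMod n)
    (h : (u : ZMod n) * x = x) (hx : addOrderOf x = M) : u ∈ (ZMod.unitsMap hM).ker := by
  rw [MonoidHom.mem_ker]
  ext
  rw [ZMod.unitsMap_val, Units.val_one]
  have h4 : ((u : ZMod n) - 1) * x = 0 := by rw [sub_mul, one_mul, h, sub_self]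
  have h5 : ((((u : ZMod n) - 1).val : ℕ) : ZMod n) = (u : ZMod n) - 1 := ZMod.natCast_zmod_val _
  rw [← h5, ← nsmul_eq_mul, ← addOrderOf_dvd_iff_nsmul_eq_zero, hx] at h4
  have h2 : (((u : ZMod n) - 1).cast : ZMod M) = 0 := by
    rw [← ZMod.natCast_eq_zero_iff, ZMod.natCast_val] at h4
    exact h4
  rw [ZMod.cast_sub hM, ZMod.cast_one hM, sub_eq_zero] at h2
  exact h2

theorem EIG_order_dvd (n : ℕ) [NeZero n] (x : ZMod n) : addOrderOf x ∣ n := by
  rw [addOrderOf_dvd_iff_nsmul_eq_zero, nsmul_eq_mul, ZMod.natCast_self, zero_mul]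

theorem eig (n : ℕ) [NeZero n] (χ : DirichletCharacter ℂ n) (S : Set ℕ) (𝒳 : Set (ZMod n))
    (hS : ∀ q ∈ S, q.Prime ∧ q ∣ n)
    (hunit : ∀ u : (ZMod n)ˣ, ∀ x ∈ 𝒳, (u : ZMod n) * x ∈ 𝒳)
    (hfib : ∀ q ∈ S, ∀ x ∈ 𝒳, ∀ y : ZMod n, (q : ZMod n) * y = q * x → y ∈ 𝒳)
    (hmul : ∀ q ∈ S, ∀ x ∈ 𝒳, (q : ZMod n) * x ∈ 𝒳)
    (δ : ZMod n → ℂ) (heig : ∀ u : (ZMod n)ˣ, ∀ x, δ ((u : ZMod n) * x) = χ (u : ZMod n) * δ x)
    (hdist : ∀ q ∈ S, ∀ x ∈ 𝒳,
      ∑ y ∈ univ.filter (fun y : ZMod n => (q : ZMod n) * y = q * x), δ y = δ (q * x))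
    (M₀ : ℕ) (hM₀ : ∀ x ∈ 𝒳, χ.conductor ∣ addOrderOf x →
      (∀ q ∈ S, q ∣ addOrderOf x → ¬ χ.conductor ∣ addOrderOf x / q) → addOrderOf x = M₀)
    (hzero : ∀ x ∈ 𝒳, addOrderOf x = M₀ → δ x = 0) : ∀ x ∈ 𝒳, δ x = 0 := by
  have hmain : ∀ M : ℕ, ∀ x ∈ 𝒳, addOrderOf x = M → δ x = 0 := by
    intro M
    induction M using Nat.strong_induction_on with
    | _ M ih =>
      intro x hx hxM
      have hMn : M ∣ n := hxM ▸ EIG_order_dvd n x
      have hM0 : 0 < M := Nat.pos_of_dvd_of_pos hMn (Nat.pos_of_ne_zero (NeZero.ne n))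
      by_cases hc : χ.conductor ∣ M
      · by_cases hq : ∃ q ∈ S, q ∣ M ∧ χ.conductor ∣ M / q
        · obtain ⟨q, hqS, hqM, hcq⟩ := hq
          obtain ⟨hqp, hqn⟩ := hS q hqS
          have hMq : M / q ∣ n := (Nat.div_dvd_of_dvd hqM).trans hMn
          have hMq0 : M / q < M := Nat.div_lt_self hM0 hqp.one_lt
          have horder : addOrderOf ((q : ZMod n) * x) = M / q := by
            rw [← nsmul_eq_mul, addOrderOf_nsmul' x hqp.ne_zero, hxM, Nat.gcd_eq_right hqM]
          have h1 : δ ((q : ZMod n) * x) = 0 := ih _ hMq0 _ (hmul q hqS x hx) horder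
          have h2 := hdist q hqS x hx
          rw [h1] at h2
          have h3 : ∀ y ∈ univ.filter (fun y : ZMod n => (q : ZMod n) * y = q * x),
              δ y = if addOrderOf y = M then δ x else 0 := by
            intro y hy
            rw [mem_filter] at hy
            have hy𝒳 : y ∈ 𝒳 := hfib q hqS x hx y hy.2
            have hyM : addOrderOf y ∣ M := by
              rw [addOrderOf_dvd_iff_nsmul_eq_zero]
              obtain ⟨k, hk⟩ := hqM
              have h4 : M • y = k • ((q : ZMod n) * y) := by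
                rw [← nsmul_eq_mul, smul_smul, hk, mul_comm]
              have h5 : M • x = k • ((q : ZMod n) * x) := by
                rw [← nsmul_eq_mul, smul_smul, hk, mul_comm]
              rw [h4, hy.2, ← h5, ← hxM, addOrderOf_nsmul_eq_zero]
            split_ifs with hyo
            · obtain ⟨u, hu⟩ := EIG_unit n x y (hxM.trans hyo.symm)
              have h6 : (u : ZMod n) * ((q : ZMod n) * x) = (q : ZMod n) * x := by
                have h11 : (u : ZMod n) * ((q : ZMod n) * x) = (q : ZMod n) * y := by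
                  rw [hu]; ring
                rw [h11, hy.2]
              have h7 := EIG_mem_ker n hMq u _ h6 horder
              have h8 : χ.FactorsThrough (M / q) :=
                (DirichletCharacter.mem_conductorSet_iff_conductor_dvd χ hMq).2 hcq
              have h9 := (DirichletCharacter.factorsThrough_iff_ker_unitsMap hMq).1 h8 h7
              have h10 : χ (u : ZMod n) = 1 := by
                have := congrArg Units.val (MonoidHom.mem_ker.1 h9)
                rwa [MulChar.coe_toUnitHom, Units.val_one] at this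
              rw [hu, heig, h10, one_mul]
            · exact ih _ (lt_of_le_of_ne (Nat.le_of_dvd hM0 hyM) hyo) y hy𝒳 rfl
          rw [sum_congr rfl h3, ← sum_filter, sum_const, nsmul_eq_mul, mul_eq_zero] at h2
          rcases h2 with h2 | h2
          · exfalso
            rw [Nat.cast_eq_zero, card_eq_zero] at h2
            have h4 : x ∈ filter (fun y => addOrderOf y = M)
                (univ.filter (fun y : ZMod n => (q : ZMod n) * y = q * x)) := by
              simp [hxM]
            rw [h2] at h4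
            exact absurd h4 (notMem_empty x)
          · exact h2
        · push Not at hq
          exact hzero x hx (hM₀ x hx (hxM ▸ hc) (fun q hqS hqM => by
            rw [hxM] at hqM ⊢
            exact hq q hqS hqM))
      · have h1 : ¬ χ.FactorsThrough M := fun h =>
          hc ((DirichletCharacter.mem_conductorSet_iff_conductor_dvd χ hMn).1 h)
        rw [DirichletCharacter.factorsThrough_iff_ker_unitsMap hMn, SetLike.not_le_iff_exists] at h1
        obtain ⟨u, hu, hu'⟩ := h1
        have h2 := EIG_mul_eq n hMn u hu x (hxM ▸ dvd_rfl)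
        have h3 := heig u x
        rw [h2] at h3
        have h4 : χ (u : ZMod n) ≠ 1 := by
          intro h5
          apply hu'
          rw [MonoidHom.mem_ker]
          ext
          rw [MulChar.coe_toUnitHom, Units.val_one, h5]
        have h5 : (1 - χ (u : ZMod n)) * δ x = 0 := by
          rw [sub_mul, one_mul, ← h3, sub_self]
        rcases mul_eq_zero.1 h5 with h6 | h6
        · exact absurd (sub_eq_zero.1 h6).symm h4
        · exact h6
  intro x hx
  exact hmain _ x hx rfl

end Pool.Agent.helper34.EL
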